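import Pool.Agent.H67.Scott2

namespace Pool.Agent.Results.MP_997916_al.Counter

open Pool.Agent.H67

theorem result : ∃ (G : Type) (_ : Group G) (_ : Finite G) (G₁ G₂ : Subgroup G),
    (∀ N : Subgroup G, N.Normal → N ≤ G₁ → N = ⊥) ∧
    (∀ N : Subgroup G, N.Normal → N ≤ G₂ → N = ⊥) ∧
    (∃ e : ((G ⧸ G₁) →₀ ℤ) ≃ₗ[ℤ] ((G ⧸ G₂) →₀ ℤ), ∀ (g : G) (x : (G ⧸ G₁) →₀ ℤ),
      e (Finsupp.mapDomain (fun c => g • c) x) = Finsupp.mapDomain (fun c => g • c) (e x)) ∧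
    IsEmpty (G₁ ≃* G₂) :=
  Coset.main Scott.KM Scott.LM Scott.KL Scott.LK Scott.hK Scott.z1 Scott.z2 Scott.trans1
    Scott.trans2 Scott.hf Scott.hfix

end Pool.Agent.Results.MP_997916_al.Counter
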